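import Pool.Agent.H6.CSB

namespace Pool.Agent.Results.MP_eafd9d_co.Q1

open Pool.Agent.H6.CS

/-- Q1 is false: there are finite graphs `X`, `Y` with a weak but no strong
completely positive semidefinite homomorphism from `X` to `Y`. -/
theorem result : ∃ (A B : Type) (_ : Fintype A) (_ : Fintype B) (X : SimpleGraph A)
    (Y : SimpleGraph B), Weak X Y ∧ ¬ Strong X Y :=
  ⟨_, _, inferInstance, inferInstance, ⊤, Y, weak, not_strong⟩

end Pool.Agent.Results.MP_eafd9d_co.Q1
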